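import Pool.Agent.H902R3.BF.Defs
import Pool.Agent.H902R3.BF.UNQ
import Pool.Agent.H902R3.BF.INJ
import Pool.Agent.H902R3.BF.CNT
import Pool.Agent.H902R3.BF.MOD
import Pool.Agent.H902R3.BF.PAR
import Pool.Agent.H902R3.BF.ETA
import Pool.Agent.H902R3.BF.LOW
import Pool.Agent.H902R3.BF.EXI
import Pool.Agent.H902R3.BF.SHO
import Pool.Agent.H902R3.BF.SH2
import Pool.Agent.H902R3.BF.FN3

/-!
# MP_c52340_nt: an explicit bound for multipliers in base four

Every odd integer `k` has a multiplier `m` (so `m` and `k m` are both sums of `± 4 ^ i` with distinct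
exponents) with `3 m < 4 ^ (⌊|k| / 3⌋ + 1)` and, for every `M` with `4 ^ M > 2 |k|`,
`3 m < 4 ^ ((3 ^ M + 1) / 2)`; so `log m` is at most a constant times `|k| ^ (log 3 / log 4)`.
-/

set_option autoImplicit false

namespace Pool.Agent.Results.MP_c52340_nt.ExplicitMultiplier

/-- the set `L` of integers with a finite expansion in base four with digits -1, 0, 1 -/
def L : Set ℤ := {n | ∃ (N : ℕ) (e : ℕ → ℤ), (∀ i, e i = -1 ∨ e i = 0 ∨ e i = 1) ∧
  n = ∑ i ∈ Finset.range N, e i * 4 ^ i}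

open Pool.Agent.H902R3.BF in
/-- existence of multipliers -/
theorem existence : S_EXI :=
  EXI_ok (INJ_ok UNQ_ok) CNT_ok (PAR_ok MOD_ok) ETA_ok LOW_ok

/-- **Theorem.**  Every odd integer `k` has a multiplier `m`, that is, a positive integer `m` with
`m ∈ L` and `k m ∈ L`, such that `3 m < 4 ^ (⌊|k| / 3⌋ + 1)` and `3 m < 4 ^ ((3 ^ M + 1) / 2)` for
every natural number `M` with `2 |k| < 4 ^ M`. -/
theorem result : ∀ k : ℤ, Odd k → ∃ m : ℤ, 0 < m ∧ m ∈ L ∧ k * m ∈ L ∧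
    3 * m < 4 ^ (k.natAbs / 3 + 1) ∧
    ∀ M : ℕ, 2 * |k| < 4 ^ M → 3 * m < 4 ^ ((3 ^ M + 1) / 2) :=
  Pool.Agent.H902R3.BF.FN3_ok existence

end Pool.Agent.Results.MP_c52340_nt.ExplicitMultiplier
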